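import Mathlib

/-!
Generalised Langton ants: a configuration of Langton's ant (rule word LR) whose
set of infinitely often visited cells is exactly the two-row strip `y = 0 or y = 1`.
-/

namespace Pool.Agent.Results.MP_d11917_an.StripAnt

/-- The two letters of a rule word. -/
inductive Turn
  | L
  | R
  deriving DecidableEq

/-- The four headings. -/
inductive Dir
  | north
  | east
  | south
  | west
  deriving DecidableEq

/-- The unit vector of a heading. -/
def Dir.vec : Dir → ℤ × ℤ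
  | .north => (0, 1)
  | .east => (1, 0)
  | .south => (0, -1)
  | .west => (-1, 0)

/-- A quarter turn: clockwise for `R`, counterclockwise for `L`. -/
def rot : Turn → Dir → Dir
  | .R, .north => .east
  | .R, .east => .south
  | .R, .south => .west
  | .R, .west => .north
  | .L, .north => .west
  | .L, .west => .south
  | .L, .south => .east
  | .L, .east => .north

/-- An ant configuration for a rule word of length `m`: grid, position, heading. -/
structure Config (m : ℕ) where
  grid : ℤ × ℤ → Fin m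
  pos : ℤ × ℤ
  dir : Dir

/-- One step of the ant with rule word `w`. -/
def step {m : ℕ} [NeZero m] (w : Fin m → Turn) (C : Config m) : Config m where
  grid := Function.update C.grid C.pos (C.grid C.pos + 1)
  pos := C.pos + (rot (w (C.grid C.pos)) C.dir).vec
  dir := rot (w (C.grid C.pos)) C.dir

/-- The set of cells which the ant visits infinitely often. -/
def Rec {m : ℕ} [NeZero m] (w : Fin m → Turn) (C : Config m) : Set (ℤ × ℤ) :=
  {x | {t : ℕ | ((step w)^[t] C).pos = x}.Infinite}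

/-- Langton's ant: the rule word `LR`. -/
def LR : Fin 2 → Turn := ![Turn.L, Turn.R]

/-- The step of Langton's ant. -/
abbrev S : Config 2 → Config 2 := step LR

/-! ### Local simulation -/

/-- A finite piece of a configuration. -/
structure LS where
  cells : List ((ℤ × ℤ) × Fin 2)
  pos : ℤ × ℤ
  dir : Dir
  deriving DecidableEq

/-- Look up the state of a cell. -/
def look : List ((ℤ × ℤ) × Fin 2) → ℤ × ℤ → Option (Fin 2)
  | [], _ => none
  | e :: l, p => if e.1 = p then some e.2 else look l p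

theorem look_mem : ∀ (l : List ((ℤ × ℤ) × Fin 2)) (p : ℤ × ℤ) (k : Fin 2),
    look l p = some k → (p, k) ∈ l
  | [], _, _, h => by simp [look] at h
  | e :: l, p, k, h => by
      unfold look at h
      split_ifs at h with h1
      · have : e = (p, k) := by
          obtain ⟨a, b⟩ := e
          simp at h h1
          simp [h, h1]
        simp [this]
      · exact List.mem_cons_of_mem _ (look_mem l p k h)

/-- One local step. -/
def lstep (s : LS) : Option LS :=
  match look s.cells s.pos with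
  | none => none
  | some k => some ⟨s.cells.map (fun e => if e.1 = s.pos then (e.1, e.2 + 1) else e),
      s.pos + (rot (LR k) s.dir).vec, rot (LR k) s.dir⟩

/-- Several local steps. -/
def lrun : ℕ → LS → Option LS
  | 0, s => some s
  | n + 1, s => (lstep s).bind (lrun n)

/-- The configuration `D` agrees with the local piece `s` translated by `v`. -/
def Mat (s : LS) (v : ℤ × ℤ) (D : Config 2) : Prop :=
  D.pos = s.pos + v ∧ D.dir = s.dir ∧ ∀ e ∈ s.cells, D.grid (e.1 + v) = e.2

theorem lstep_spec (s s' : LS) (v : ℤ × ℤ) (D : Config 2) (h : Mat s v D)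
    (hs : lstep s = some s') :
    Mat s' v (S D) ∧ (∀ c, (∀ e ∈ s.cells, c ≠ e.1 + v) → (S D).grid c = D.grid c) ∧
      s'.cells.map Prod.fst = s.cells.map Prod.fst := by
  obtain ⟨h1, h2, h3⟩ := h
  unfold lstep at hs
  cases hk : look s.cells s.pos with
  | none => simp [hk] at hs
  | some k =>
    rw [hk] at hs
    simp only [Option.some.injEq] at hs
    subst hs
    have hm := look_mem _ _ _ hk
    have hg : D.grid D.pos = k := by
      rw [h1]; exact h3 _ hm
    refine ⟨⟨?_, ?_, ?_⟩, ?_, ?_⟩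
    · show D.pos + (rot (LR (D.grid D.pos)) D.dir).vec = _
      rw [hg, h1, h2]
      simp only
      abel
    · show rot (LR (D.grid D.pos)) D.dir = _
      rw [hg, h2]
    · intro e he
      simp only [List.mem_map] at he
      obtain ⟨a, ha, rfl⟩ := he
      have h4 := h3 a ha
      show Function.update D.grid D.pos (D.grid D.pos + 1) _ = _
      by_cases hc : a.1 = s.pos
      · simp only [hc, if_true]
        rw [← h1, Function.update_self]
        rw [h1, ← hc, h4]
      · simp only [hc, if_false]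
        rw [Function.update_of_ne, h4]
        rw [h1]
        intro h5
        exact hc (add_right_cancel h5)
    · intro c hc
      show Function.update D.grid D.pos (D.grid D.pos + 1) c = _
      rw [Function.update_of_ne]
      have := hc _ hm
      rw [h1]
      exact this
    · simp only [List.map_map]
      apply List.map_congr_left
      intro a _
      simp only [Function.comp]
      split_ifs <;> rfl

theorem lrun_spec : ∀ (n : ℕ) (s s' : LS) (v : ℤ × ℤ) (D : Config 2), Mat s v D →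
    lrun n s = some s' →
    Mat s' v (S^[n] D) ∧ (∀ c, (∀ e ∈ s.cells, c ≠ e.1 + v) → (S^[n] D).grid c = D.grid c)
  | 0, s, s', v, D, h, hs => by
      simp only [lrun, Option.some.injEq] at hs
      subst hs
      exact ⟨h, fun _ _ => rfl⟩
  | n + 1, s, s', v, D, h, hs => by
      simp only [lrun] at hs
      cases hk : lstep s with
      | none => simp [hk] at hs
      | some u =>
        rw [hk] at hs
        simp only [Option.bind_some] at hs
        obtain ⟨h1, h2, h3⟩ := lstep_spec s u v D h hk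
        obtain ⟨h4, h5⟩ := lrun_spec n u s' v (S D) h1 hs
        refine ⟨by simpa [Function.iterate_succ_apply] using h4, ?_⟩
        intro c hc
        rw [Function.iterate_succ_apply, h5 c, h2 c hc]
        intro e he hce
        have : e.1 ∈ u.cells.map Prod.fst := List.mem_map_of_mem (f := Prod.fst) he
        rw [h3] at this
        obtain ⟨a, ha, hae⟩ := List.mem_map.1 this
        exact hc a ha (by rw [hce, hae])

/-- Check a property of the positions visited before time `n`. -/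
def chk (n : ℕ) (s : LS) (q : ℤ × ℤ → Bool) : Bool :=
  (List.range n).all fun t => match lrun t s with
    | none => false
    | some u => q u.pos

theorem chk_spec (n : ℕ) (s : LS) (q : ℤ × ℤ → Bool) (h : chk n s q = true) (v : ℤ × ℤ)
    (D : Config 2) (hm : Mat s v D) (t : ℕ) (ht : t < n) :
    q ((S^[t] D).pos - v) = true := by
  unfold chk at h
  rw [List.all_eq_true] at h
  have := h t (List.mem_range.2 ht)
  cases hr : lrun t s with
  | none => simp [hr] at this
  | some u =>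
    rw [hr] at this
    have h1 := (lrun_spec t s u v D hm hr).1.1
    rw [h1, add_sub_cancel_right]
    exact this

/-! ### The three building blocks -/

/-- Start of the eastward sweep over two columns. -/
def sE : LS := ⟨[((0,0),0),((0,1),1),((1,0),0),((1,1),1)], (0,0), .east⟩
/-- End of the eastward sweep over two columns. -/
def sE' : LS := ⟨[((0,0),1),((0,1),0),((1,0),1),((1,1),0)], (2,0), .east⟩
/-- Start of the westward sweep over two columns. -/
def sW : LS := ⟨[((0,0),1),((0,1),0),((1,0),1),((1,1),0)], (1,1), .west⟩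
/-- End of the westward sweep over two columns. -/
def sW' : LS := ⟨[((0,0),0),((0,1),1),((1,0),0),((1,1),1)], (-1,1), .west⟩
/-- The frontier before the excursion. -/
def sP : LS := ⟨[((0,-2),1),((0,-1),0),((0,0),1),((0,1),0),
  ((1,-2),1),((1,-1),1),((1,0),0),((1,1),0),
  ((2,-2),0),((2,-1),1),((2,0),1),((2,1),1),((2,2),0),
  ((3,-2),1),((3,-1),0),((3,0),1),((3,1),1),((3,2),0),
  ((4,-2),0),((4,-1),1),((4,0),0),((4,1),0),((4,2),0)], (0,0), .east⟩
/-- The frontier after the excursion. -/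
def sP' : LS := ⟨[((0,-2),0),((0,-1),1),((0,0),0),((0,1),1),
  ((1,-2),1),((1,-1),0),((1,0),0),((1,1),1),
  ((2,-2),1),((2,-1),0),((2,0),1),((2,1),0),((2,2),1),
  ((3,-2),1),((3,-1),1),((3,0),0),((3,1),0),((3,2),1),
  ((4,-2),0),((4,-1),1),((4,0),1),((4,1),1),((4,2),0)], (-1,1), .west⟩

theorem runE : lrun 4 sE = some sE' := by decide +kernel
theorem runW : lrun 4 sW = some sW' := by decide +kernel
theorem runP : lrun 26 sP = some sP' := by decide +kernel

theorem chkE : chk 4 sE (fun p => decide (p.2 = 0 ∨ p.2 = 1)) = true := by decide +kernel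
theorem chkW : chk 4 sW (fun p => decide (p.2 = 0 ∨ p.2 = 1)) = true := by decide +kernel
theorem chkP : chk 26 sP (fun p => decide (0 ≤ p.1)) = true := by decide +kernel

/-! ### Grid patterns -/

/-- The double column `j` is ready for an eastward sweep. -/
def Er (g : ℤ × ℤ → Fin 2) (j : ℕ) : Prop :=
  g (2 * j, 0) = 0 ∧ g (2 * j, 1) = 1 ∧ g (2 * j + 1, 0) = 0 ∧ g (2 * j + 1, 1) = 1

/-- The double column `j` is ready for a westward sweep. -/
def Wr (g : ℤ × ℤ → Fin 2) (j : ℕ) : Prop :=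
  g (2 * j, 0) = 1 ∧ g (2 * j, 1) = 0 ∧ g (2 * j + 1, 0) = 1 ∧ g (2 * j + 1, 1) = 0

/-- The untouched part of the grid at an odd column. -/
def Fo (g : ℤ × ℤ → Fin 2) (x : ℤ) : Prop :=
  g (x, -2) = 1 ∧ g (x, -1) = 0 ∧ g (x, 0) = 1 ∧ g (x, 1) = 1 ∧ g (x, 2) = 0

/-- The untouched part of the grid at an even column. -/
def Fe (g : ℤ × ℤ → Fin 2) (x : ℤ) : Prop :=
  g (x, -2) = 0 ∧ g (x, -1) = 1 ∧ g (x, 0) = 0 ∧ g (x, 1) = 0 ∧ g (x, 2) = 0

/-- The frontier at column `2 n` and the untouched part to its right. -/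
def Front (g : ℤ × ℤ → Fin 2) (n : ℕ) : Prop :=
  (g (2 * n, -2) = 1 ∧ g (2 * n, -1) = 0 ∧ g (2 * n, 0) = 1 ∧ g (2 * n, 1) = 0) ∧
  (g (2 * n + 1, -2) = 1 ∧ g (2 * n + 1, -1) = 1 ∧ g (2 * n + 1, 0) = 0 ∧
    g (2 * n + 1, 1) = 0) ∧
  (g (2 * n + 2, -2) = 0 ∧ g (2 * n + 2, -1) = 1 ∧ g (2 * n + 2, 0) = 1 ∧
    g (2 * n + 2, 1) = 1 ∧ g (2 * n + 2, 2) = 0) ∧
  (∀ j : ℕ, n ≤ j → Fo g (2 * j + 3)) ∧ (∀ j : ℕ, n ≤ j → Fe g (2 * j + 4))

/-- Columns below `2 a` swept, columns from `2 a` to `2 b` ready, frontier at `2 b`. -/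
def Q (g : ℤ × ℤ → Fin 2) (a b : ℕ) : Prop :=
  (∀ j : ℕ, j < a → Wr g j) ∧ (∀ j : ℕ, a ≤ j → j < b → Er g j) ∧ Front g b

theorem Wr_congr {g g' : ℤ × ℤ → Fin 2} {j : ℕ}
    (h : ∀ c : ℤ × ℤ, 2 * (j : ℤ) ≤ c.1 → c.1 < 2 * (j : ℤ) + 2 → g' c = g c) (hw : Wr g j) :
    Wr g' j := by
  obtain ⟨a1, a2, a3, a4⟩ := hw
  refine ⟨?_, ?_, ?_, ?_⟩
  · rw [h _ (by simp only; omega) (by simp only; omega)]; exact a1
  · rw [h _ (by simp only; omega) (by simp only; omega)]; exact a2
  · rw [h _ (by simp only; omega) (by simp only; omega)]; exact a3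
  · rw [h _ (by simp only; omega) (by simp only; omega)]; exact a4

theorem Er_congr {g g' : ℤ × ℤ → Fin 2} {j : ℕ}
    (h : ∀ c : ℤ × ℤ, 2 * (j : ℤ) ≤ c.1 → c.1 < 2 * (j : ℤ) + 2 → g' c = g c) (hw : Er g j) :
    Er g' j := by
  obtain ⟨a1, a2, a3, a4⟩ := hw
  refine ⟨?_, ?_, ?_, ?_⟩
  · rw [h _ (by simp only; omega) (by simp only; omega)]; exact a1
  · rw [h _ (by simp only; omega) (by simp only; omega)]; exact a2
  · rw [h _ (by simp only; omega) (by simp only; omega)]; exact a3
  · rw [h _ (by simp only; omega) (by simp only; omega)]; exact a4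

theorem Fo_congr {g g' : ℤ × ℤ → Fin 2} {x : ℤ} (h : ∀ c : ℤ × ℤ, c.1 = x → g' c = g c)
    (hw : Fo g x) : Fo g' x := by
  obtain ⟨a1, a2, a3, a4, a5⟩ := hw
  exact ⟨by rw [h _ rfl]; exact a1, by rw [h _ rfl]; exact a2, by rw [h _ rfl]; exact a3,
    by rw [h _ rfl]; exact a4, by rw [h _ rfl]; exact a5⟩

theorem Fe_congr {g g' : ℤ × ℤ → Fin 2} {x : ℤ} (h : ∀ c : ℤ × ℤ, c.1 = x → g' c = g c)
    (hw : Fe g x) : Fe g' x := by
  obtain ⟨a1, a2, a3, a4, a5⟩ := hw
  exact ⟨by rw [h _ rfl]; exact a1, by rw [h _ rfl]; exact a2, by rw [h _ rfl]; exact a3,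
    by rw [h _ rfl]; exact a4, by rw [h _ rfl]; exact a5⟩

theorem Front_congr {g g' : ℤ × ℤ → Fin 2} {n : ℕ}
    (h : ∀ c : ℤ × ℤ, 2 * (n : ℤ) ≤ c.1 → g' c = g c) (hF : Front g n) : Front g' n := by
  obtain ⟨⟨f1, f2, f3, f4⟩, ⟨f5, f6, f7, f8⟩, ⟨f9, f10, f11, f12, f13⟩, f14, f15⟩ := hF
  refine ⟨⟨?_, ?_, ?_, ?_⟩, ⟨?_, ?_, ?_, ?_⟩, ⟨?_, ?_, ?_, ?_, ?_⟩, ?_, ?_⟩
  · rw [h _ (by simp only; omega)]; exact f1
  · rw [h _ (by simp only; omega)]; exact f2
  · rw [h _ (by simp only; omega)]; exact f3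
  · rw [h _ (by simp only; omega)]; exact f4
  · rw [h _ (by simp only; omega)]; exact f5
  · rw [h _ (by simp only; omega)]; exact f6
  · rw [h _ (by simp only; omega)]; exact f7
  · rw [h _ (by simp only; omega)]; exact f8
  · rw [h _ (by simp only; omega)]; exact f9
  · rw [h _ (by simp only; omega)]; exact f10
  · rw [h _ (by simp only; omega)]; exact f11
  · rw [h _ (by simp only; omega)]; exact f12
  · rw [h _ (by simp only; omega)]; exact f13
  · intro j hj
    exact Fo_congr (fun c hc => h c (by omega)) (f14 j hj)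
  · intro j hj
    exact Fe_congr (fun c hc => h c (by omega)) (f15 j hj)

/-- A segment of the run from `D` to `D'` whose positions all lie in `V` and which visits
every cell of `U`. -/
def Seg (D D' : Config 2) (V U : Set (ℤ × ℤ)) : Prop :=
  ∃ T : ℕ, S^[T] D = D' ∧ (∀ t, t < T → (S^[t] D).pos ∈ V) ∧
    ∀ c ∈ U, ∃ t, t < T ∧ (S^[t] D).pos = c

theorem Seg.trans {D D' D'' : Config 2} {V U U' : Set (ℤ × ℤ)} (h : Seg D D' V U)
    (h' : Seg D' D'' V U') : Seg D D'' V (U ∪ U') := by
  obtain ⟨T, h1, h2, h3⟩ := h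
  obtain ⟨T', h1', h2', h3'⟩ := h'
  have key : ∀ t, (S^[T + t] D) = S^[t] D' := by
    intro t
    rw [Nat.add_comm, Function.iterate_add_apply, h1]
  refine ⟨T + T', ?_, ?_, ?_⟩
  · rw [key, h1']
  · intro t ht
    by_cases hc : t < T
    · exact h2 t hc
    · have : t = T + (t - T) := by omega
      rw [this, key]
      exact h2' _ (by omega)
  · rintro c (hc | hc)
    · obtain ⟨t, ht, h⟩ := h3 c hc
      exact ⟨t, by omega, h⟩
    · obtain ⟨t, ht, h⟩ := h3' c hc
      exact ⟨T + t, by omega, by rw [key]; exact h⟩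

/-- The strip together with everything from column `2 n` on. -/
def strip2 (n : ℕ) : Set (ℤ × ℤ) := {c | (c.2 = 0 ∨ c.2 = 1) ∨ 2 * (n : ℤ) ≤ c.1}

/-- The cells of the strip in the double column `k`. -/
def dcol (k : ℕ) : Set (ℤ × ℤ) :=
  {c | (c.2 = 0 ∨ c.2 = 1) ∧ 2 * (k : ℤ) ≤ c.1 ∧ c.1 < 2 * (k : ℤ) + 2}

theorem east_step (n k : ℕ) (hk : k < n) (D : Config 2) (hp : D.pos = (2 * (k : ℤ), 0))
    (hd : D.dir = .east) (hg : Q D.grid k n) :
    ∃ D' : Config 2, Seg D D' (strip2 n) (dcol k) ∧ D'.pos = (2 * ((k + 1 : ℕ) : ℤ), 0) ∧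
      D'.dir = .east ∧ Q D'.grid (k + 1) n ∧ ∀ c : ℤ × ℤ, c.1 < 0 → D'.grid c = D.grid c := by
  obtain ⟨hW, hE, hF⟩ := hg
  have hm : Mat sE (2 * (k : ℤ), 0) D := by
    obtain ⟨a1, a2, a3, a4⟩ := hE k le_rfl hk
    refine ⟨by rw [hp]; simp [sE], by rw [hd]; rfl, ?_⟩
    intro e he
    simp only [sE, List.mem_cons, List.not_mem_nil, or_false] at he
    rcases he with rfl | rfl | rfl | rfl
    · simpa using a1
    · simpa using a2
    · simpa [add_comm] using a3
    · simpa [add_comm] using a4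
  obtain ⟨⟨m1, m2, m3⟩, m4⟩ := lrun_spec 4 _ _ _ _ hm runE
  have unch : ∀ c : ℤ × ℤ, (c.1 < 2 * (k : ℤ) ∨ 2 * (k : ℤ) + 2 ≤ c.1) →
      (S^[4] D).grid c = D.grid c := by
    intro c hc
    apply m4
    intro e he hce
    simp only [sE, List.mem_cons, List.not_mem_nil, or_false] at he
    rcases he with rfl | rfl | rfl | rfl <;>
      (subst hce; simp only [Prod.fst_add] at hc; omega)
  refine ⟨S^[4] D, ⟨4, rfl, ?_, ?_⟩, ?_, ?_, ?_, ?_⟩
  · intro t ht
    have := chk_spec 4 sE _ chkE _ D hm t ht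
    simp at this
    exact Or.inl this
  · rintro ⟨cx, cy⟩ ⟨h1, h2, h3⟩
    simp only at h1 h2 h3
    have hpos : ∀ (t : ℕ) (u : LS), lrun t sE = some u →
        (S^[t] D).pos = u.pos + (2 * (k : ℤ), 0) :=
      fun t u hu => (lrun_spec t sE u _ D hm hu).1.1
    have hx : cx = 2 * (k : ℤ) ∨ cx = 2 * (k : ℤ) + 1 := by omega
    rcases hx with rfl | rfl <;> rcases h1 with rfl | rfl
    · exact ⟨0, by omega, by rw [hpos 0 sE rfl]; simp [sE]⟩
    · refine ⟨1, by omega, ?_⟩
      rw [hpos 1 ⟨[((0,0),1),((0,1),1),((1,0),0),((1,1),1)], (0,1), .north⟩ (by decide +kernel)]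
      simp
    · refine ⟨3, by omega, ?_⟩
      rw [hpos 3 ⟨[((0,0),1),((0,1),0),((1,0),0),((1,1),0)], (1,0), .south⟩ (by decide +kernel)]
      simp [add_comm]
    · refine ⟨2, by omega, ?_⟩
      rw [hpos 2 ⟨[((0,0),1),((0,1),0),((1,0),0),((1,1),1)], (1,1), .east⟩ (by decide +kernel)]
      simp [add_comm]
  · rw [m1]; simp [sE']; ring
  · rw [m2]; rfl
  · refine ⟨?_, ?_, ?_⟩
    · intro j hj
      by_cases hjk : j = k
      · subst hjk
        have b1 := m3 ((0,0),1) (by simp [sE'])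
        have b2 := m3 ((0,1),0) (by simp [sE'])
        have b3 := m3 ((1,0),1) (by simp [sE'])
        have b4 := m3 ((1,1),0) (by simp [sE'])
        simp at b1 b2 b3 b4
        exact ⟨b1, b2, by rw [add_comm]; exact b3, by rw [add_comm]; exact b4⟩
      · exact Wr_congr (fun c h1 h2 => unch c (by omega)) (hW j (by omega))
    · intro j hj hjn
      exact Er_congr (fun c h1 h2 => unch c (by omega)) (hE j (by omega) hjn)
    · exact Front_congr (fun c h1 => unch c (by omega)) hF
  · intro c hc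
    exact unch c (Or.inl (by omega))

theorem west_step (n b k : ℕ) (hk : k < b) (D : Config 2)
    (hp : D.pos = (2 * ((k + 1 : ℕ) : ℤ) - 1, 1))
    (hd : D.dir = .west) (hg : Q D.grid (k + 1) b) :
    ∃ D' : Config 2, Seg D D' (strip2 n) ∅ ∧ D'.pos = (2 * (k : ℤ) - 1, 1) ∧
      D'.dir = .west ∧ Q D'.grid k b ∧ ∀ c : ℤ × ℤ, c.1 < 0 → D'.grid c = D.grid c := by
  obtain ⟨hW, hE, hF⟩ := hg
  have hm : Mat sW (2 * (k : ℤ), 0) D := by
    obtain ⟨a1, a2, a3, a4⟩ := hW k (by omega)
    refine ⟨by rw [hp]; simp [sW]; ring, by rw [hd]; rfl, ?_⟩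
    intro e he
    simp only [sW, List.mem_cons, List.not_mem_nil, or_false] at he
    rcases he with rfl | rfl | rfl | rfl
    · simpa using a1
    · simpa using a2
    · simpa [add_comm] using a3
    · simpa [add_comm] using a4
  obtain ⟨⟨m1, m2, m3⟩, m4⟩ := lrun_spec 4 _ _ _ _ hm runW
  have unch : ∀ c : ℤ × ℤ, (c.1 < 2 * (k : ℤ) ∨ 2 * (k : ℤ) + 2 ≤ c.1) →
      (S^[4] D).grid c = D.grid c := by
    intro c hc
    apply m4
    intro e he hce
    simp only [sW, List.mem_cons, List.not_mem_nil, or_false] at he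
    rcases he with rfl | rfl | rfl | rfl <;>
      (subst hce; simp only [Prod.fst_add] at hc; omega)
  refine ⟨S^[4] D, ⟨4, rfl, ?_, ?_⟩, ?_, ?_, ?_, ?_⟩
  · intro t ht
    have := chk_spec 4 sW _ chkW _ D hm t ht
    simp at this
    exact Or.inl this
  · intro c hc
    exact absurd hc (Set.notMem_empty c)
  · rw [m1]; simp [sW']; ring
  · rw [m2]; rfl
  · refine ⟨?_, ?_, ?_⟩
    · intro j hj
      exact Wr_congr (fun c h1 h2 => unch c (by omega)) (hW j (by omega))
    · intro j hj hjn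
      by_cases hjk : j = k
      · subst hjk
        have b1 := m3 ((0,0),0) (by simp [sW'])
        have b2 := m3 ((0,1),1) (by simp [sW'])
        have b3 := m3 ((1,0),0) (by simp [sW'])
        have b4 := m3 ((1,1),1) (by simp [sW'])
        simp at b1 b2 b3 b4
        exact ⟨b1, b2, by rw [add_comm]; exact b3, by rw [add_comm]; exact b4⟩
      · exact Er_congr (fun c h1 h2 => unch c (by omega)) (hE j (by omega) hjn)
    · exact Front_congr (fun c h1 => unch c (by omega)) hF
  · intro c hc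
    exact unch c (Or.inl (by omega))

theorem front_step (n : ℕ) (D : Config 2) (hp : D.pos = (2 * (n : ℤ), 0))
    (hd : D.dir = .east) (hg : Q D.grid n n) :
    ∃ D' : Config 2, Seg D D' (strip2 n) ∅ ∧ D'.pos = (2 * (n : ℤ) - 1, 1) ∧
      D'.dir = .west ∧ Q D'.grid n (n + 1) ∧
      ∀ c : ℤ × ℤ, c.1 < 0 → D'.grid c = D.grid c := by
  obtain ⟨hW, hE, hF⟩ := hg
  have hm : Mat sP (2 * (n : ℤ), 0) D := by
    obtain ⟨⟨f1, f2, f3, f4⟩, ⟨f5, f6, f7, f8⟩, ⟨f9, f10, f11, f12, f13⟩, f14, f15⟩ := hF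
    obtain ⟨g1, g2, g3, g4, g5⟩ := f14 n le_rfl
    obtain ⟨h1, h2, h3, h4, h5⟩ := f15 n le_rfl
    refine ⟨by rw [hp]; simp [sP], by rw [hd]; rfl, ?_⟩
    intro e he
    simp only [sP, List.mem_cons, List.not_mem_nil, or_false] at he
    rcases he with rfl | rfl | rfl | rfl | rfl | rfl | rfl | rfl | rfl | rfl | rfl | rfl |
      rfl | rfl | rfl | rfl | rfl | rfl | rfl | rfl | rfl | rfl | rfl
    · simpa using f1
    · simpa using f2
    · simpa using f3
    · simpa using f4
    · simpa [add_comm] using f5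
    · simpa [add_comm] using f6
    · simpa [add_comm] using f7
    · simpa [add_comm] using f8
    · simpa [add_comm] using f9
    · simpa [add_comm] using f10
    · simpa [add_comm] using f11
    · simpa [add_comm] using f12
    · simpa [add_comm] using f13
    · simpa [add_comm] using g1
    · simpa [add_comm] using g2
    · simpa [add_comm] using g3
    · simpa [add_comm] using g4
    · simpa [add_comm] using g5
    · simpa [add_comm] using h1
    · simpa [add_comm] using h2
    · simpa [add_comm] using h3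
    · simpa [add_comm] using h4
    · simpa [add_comm] using h5
  obtain ⟨⟨m1, m2, m3⟩, m4⟩ := lrun_spec 26 _ _ _ _ hm runP
  have unch : ∀ c : ℤ × ℤ, (c.1 < 2 * (n : ℤ) ∨ 2 * (n : ℤ) + 5 ≤ c.1) →
      (S^[26] D).grid c = D.grid c := by
    intro c hc
    apply m4
    intro e he hce
    simp only [sP, List.mem_cons, List.not_mem_nil, or_false] at he
    rcases he with rfl | rfl | rfl | rfl | rfl | rfl | rfl | rfl | rfl | rfl | rfl | rfl |
      rfl | rfl | rfl | rfl | rfl | rfl | rfl | rfl | rfl | rfl | rfl <;>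
      (subst hce; simp only [Prod.fst_add] at hc; omega)
  refine ⟨S^[26] D, ⟨26, rfl, ?_, ?_⟩, ?_, ?_, ?_, ?_⟩
  · intro t ht
    have := chk_spec 26 sP _ chkP _ D hm t ht
    simp at this
    exact Or.inr this
  · intro c hc
    exact absurd hc (Set.notMem_empty c)
  · rw [m1]; simp [sP']; ring
  · rw [m2]; rfl
  · have val : ∀ (a y : ℤ) (s : Fin 2), ((a, y), s) ∈ sP'.cells →
        (S^[26] D).grid (2 * (n : ℤ) + a, y) = s := by
      intro a y s hs
      have := m3 ((a, y), s) hs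
      simpa [add_comm] using this
    have val0 : ∀ (y : ℤ) (s : Fin 2), ((0, y), s) ∈ sP'.cells →
        (S^[26] D).grid (2 * (n : ℤ), y) = s := by
      intro y s hs
      simpa using val 0 y s hs
    refine ⟨?_, ?_, ?_⟩
    · intro j hj
      exact Wr_congr (fun c h1 h2 => unch c (by omega)) (hW j (by omega))
    · intro j hj hjn
      have hjk : j = n := by omega
      subst hjk
      exact ⟨val0 0 0 (by simp [sP']), val0 1 1 (by simp [sP']),
        val 1 0 0 (by simp [sP']), val 1 1 1 (by simp [sP'])⟩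
    · obtain ⟨⟨f1, f2, f3, f4⟩, ⟨f5, f6, f7, f8⟩, ⟨f9, f10, f11, f12, f13⟩, f14, f15⟩ := hF
      have e2 : 2 * ((n + 1 : ℕ) : ℤ) = 2 * (n : ℤ) + 2 := by push_cast; ring
      have e3 : 2 * ((n + 1 : ℕ) : ℤ) + 1 = 2 * (n : ℤ) + 3 := by push_cast; ring
      have e4 : 2 * ((n + 1 : ℕ) : ℤ) + 2 = 2 * (n : ℤ) + 4 := by push_cast; ring
      refine ⟨⟨?_, ?_, ?_, ?_⟩, ⟨?_, ?_, ?_, ?_⟩, ⟨?_, ?_, ?_, ?_, ?_⟩, ?_, ?_⟩
      · rw [e2]; exact val 2 _ _ (by simp [sP'])
      · rw [e2]; exact val 2 _ _ (by simp [sP'])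
      · rw [e2]; exact val 2 _ _ (by simp [sP'])
      · rw [e2]; exact val 2 _ _ (by simp [sP'])
      · rw [e3]; exact val 3 _ _ (by simp [sP'])
      · rw [e3]; exact val 3 _ _ (by simp [sP'])
      · rw [e3]; exact val 3 _ _ (by simp [sP'])
      · rw [e3]; exact val 3 _ _ (by simp [sP'])
      · rw [e4]; exact val 4 _ _ (by simp [sP'])
      · rw [e4]; exact val 4 _ _ (by simp [sP'])
      · rw [e4]; exact val 4 _ _ (by simp [sP'])
      · rw [e4]; exact val 4 _ _ (by simp [sP'])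
      · rw [e4]; exact val 4 _ _ (by simp [sP'])
      · intro j hj
        exact Fo_congr (fun c hc => unch c (by omega)) (f14 j (by omega))
      · intro j hj
        exact Fe_congr (fun c hc => unch c (by omega)) (f15 j (by omega))
  · intro c hc
    exact unch c (Or.inl (by omega))

/-- The union of the first `k` double columns of the strip. -/
def ucol (k : ℕ) : Set (ℤ × ℤ) :=
  {c | (c.2 = 0 ∨ c.2 = 1) ∧ 0 ≤ c.1 ∧ c.1 < 2 * (k : ℤ)}

theorem east_phase (n : ℕ) (D : Config 2) (hp : D.pos = (0, 0))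
    (hd : D.dir = .east) (hg : Q D.grid 0 n) : ∀ k : ℕ, k ≤ n →
    ∃ D' : Config 2, Seg D D' (strip2 n) (ucol k) ∧ D'.pos = (2 * (k : ℤ), 0) ∧
      D'.dir = .east ∧ Q D'.grid k n ∧ ∀ c : ℤ × ℤ, c.1 < 0 → D'.grid c = D.grid c := by
  intro k
  induction k with
  | zero =>
    intro _
    refine ⟨D, ⟨0, rfl, fun t ht => absurd ht (Nat.not_lt_zero t), ?_⟩, by simpa using hp, hd,
      hg, fun _ _ => rfl⟩
    rintro c ⟨_, h1, h2⟩
    simp at h2
    omega
  | succ k ih =>
    intro hk
    obtain ⟨D1, s1, p1, d1, q1, u1⟩ := ih (by omega)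
    obtain ⟨D2, s2, p2, d2, q2, u2⟩ := east_step n k (by omega) D1 p1 d1 q1
    refine ⟨D2, ?_, p2, d2, q2, fun c hc => by rw [u2 c hc, u1 c hc]⟩
    obtain ⟨T, t1, t2, t3⟩ := s1.trans s2
    refine ⟨T, t1, t2, ?_⟩
    rintro c ⟨h0, h1, h2⟩
    apply t3
    push_cast at h2
    by_cases hc : c.1 < 2 * (k : ℤ)
    · exact Or.inl ⟨h0, h1, hc⟩
    · exact Or.inr ⟨h0, by omega, by omega⟩

theorem west_phase (n b : ℕ) : ∀ k : ℕ, k ≤ b → ∀ D : Config 2,
    D.pos = (2 * (k : ℤ) - 1, 1) → D.dir = .west → Q D.grid k b →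
    ∃ D' : Config 2, Seg D D' (strip2 n) ∅ ∧ D'.pos = (-1, 1) ∧
      D'.dir = .west ∧ Q D'.grid 0 b ∧ ∀ c : ℤ × ℤ, c.1 < 0 → D'.grid c = D.grid c := by
  intro k
  induction k with
  | zero =>
    intro _ D hp hd hg
    exact ⟨D, ⟨0, rfl, fun t ht => absurd ht (Nat.not_lt_zero t),
      fun c hc => absurd hc (Set.notMem_empty c)⟩, by simpa using hp, hd, hg, fun _ _ => rfl⟩
  | succ k ih =>
    intro hk D hp hd hg
    obtain ⟨D1, s1, p1, d1, q1, u1⟩ := west_step n b k (by omega) D hp hd hg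
    obtain ⟨D2, s2, p2, d2, q2, u2⟩ := ih (by omega) D1 p1 d1 q1
    refine ⟨D2, ?_, p2, d2, q2, fun c hc => by rw [u2 c hc, u1 c hc]⟩
    obtain ⟨T, t1, t2, t3⟩ := s1.trans s2
    exact ⟨T, t1, t2, fun c hc => absurd hc (Set.notMem_empty c)⟩

theorem excursion (n : ℕ) (D : Config 2) (hp : D.pos = (0, 0))
    (hd : D.dir = .east) (hg : Q D.grid 0 n) :
    ∃ D' : Config 2, Seg D D' (strip2 n) (ucol n) ∧ D'.pos = (-1, 1) ∧
      D'.dir = .west ∧ Q D'.grid 0 (n + 1) ∧
      ∀ c : ℤ × ℤ, c.1 < 0 → D'.grid c = D.grid c := by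
  obtain ⟨D1, s1, p1, d1, q1, u1⟩ := east_phase n D hp hd hg n le_rfl
  obtain ⟨D2, s2, p2, d2, q2, u2⟩ := front_step n D1 p1 d1 q1
  obtain ⟨D3, s3, p3, d3, q3, u3⟩ := west_phase n (n + 1) n (by omega) D2 p2 d2 q2
  refine ⟨D3, ?_, p3, d3, q3, fun c hc => by rw [u3 c hc, u2 c hc, u1 c hc]⟩
  obtain ⟨T, t1, t2, t3⟩ := (s1.trans s2).trans s3
  exact ⟨T, t1, t2, fun c hc => t3 c (Or.inl (Or.inl hc))⟩

/-! ### The half-turn symmetry -/

/-- The half turn exchanging the two ends of the strip. -/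
def rho (c : ℤ × ℤ) : ℤ × ℤ := (-1 - c.1, 1 - c.2)

theorem rho_rho (c : ℤ × ℤ) : rho (rho c) = c := by
  obtain ⟨x, y⟩ := c
  simp [rho]

/-- The opposite heading. -/
def opp : Dir → Dir
  | .north => .south
  | .south => .north
  | .east => .west
  | .west => .east

theorem opp_opp (d : Dir) : opp (opp d) = d := by cases d <;> rfl

theorem rot_opp (t : Turn) (d : Dir) : rot t (opp d) = opp (rot t d) := by
  cases t <;> cases d <;> rfl

theorem vec_opp (d : Dir) : (opp d).vec = - d.vec := by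
  cases d <;> simp [opp, Dir.vec]

/-- The rotated configuration. -/
def rc (C : Config 2) : Config 2 := ⟨fun c => C.grid (rho c), rho C.pos, opp C.dir⟩

theorem rc_rc (C : Config 2) : rc (rc C) = C := by
  obtain ⟨g, p, d⟩ := C
  simp [rc, rho_rho, opp_opp]

theorem step_rc (C : Config 2) : S (rc C) = rc (S C) := by
  obtain ⟨g, p, d⟩ := C
  simp only [S, step, rc, rho_rho, rot_opp, vec_opp, Config.mk.injEq, and_true]
  refine ⟨?_, ?_⟩
  · funext c
    by_cases h : c = rho p
    · subst h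
      simp [rho_rho]
    · have h' : rho c ≠ p := by
        intro h2
        apply h
        rw [← h2, rho_rho]
      rw [Function.update_of_ne h, Function.update_of_ne h']
  · obtain ⟨x, y⟩ := p
    simp only [rho, Prod.fst_add, Prod.snd_add]
    ext
    · simp only [Prod.fst_add, Prod.fst_neg]; ring
    · simp only [Prod.snd_add, Prod.snd_neg]; ring

theorem iter_rc (t : ℕ) (C : Config 2) : S^[t] (rc C) = rc (S^[t] C) := by
  induction t generalizing C with
  | zero => rfl
  | succ t ih => rw [Function.iterate_succ_apply, step_rc, ih, ← Function.iterate_succ_apply]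

theorem Q_congr {g g' : ℤ × ℤ → Fin 2} {a b : ℕ}
    (h : ∀ c : ℤ × ℤ, 0 ≤ c.1 → g' c = g c) (hq : Q g a b) : Q g' a b := by
  obtain ⟨hW, hE, hF⟩ := hq
  exact ⟨fun j hj => Wr_congr (fun c h1 _ => h c (by omega)) (hW j hj),
    fun j hj hjb => Er_congr (fun c h1 _ => h c (by omega)) (hE j hj hjb),
    Front_congr (fun c h1 => h c (by omega)) hF⟩

/-- The invariant: both frontiers are at distance `2 n`, everything between them is ready,
and the ant stands at the origin heading east. -/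
def Inv (n : ℕ) (C : Config 2) : Prop :=
  C.pos = (0, 0) ∧ C.dir = .east ∧ Q C.grid 0 n ∧ Q (fun c => C.grid (rho c)) 0 n

/-- The cells of the strip, and those beyond the frontiers. -/
def V2 (n : ℕ) : Set (ℤ × ℤ) :=
  {c | (c.2 = 0 ∨ c.2 = 1) ∨ 2 * (n : ℤ) ≤ c.1 ∨ c.1 < - (2 * (n : ℤ))}

theorem next_inv (n : ℕ) (C : Config 2) (h : Inv n C) :
    ∃ T : ℕ, 0 < T ∧ Inv (n + 1) (S^[T] C) ∧ (∀ t, t < T → (S^[t] C).pos ∈ V2 n) ∧
      ∀ c : ℤ × ℤ, (c.2 = 0 ∨ c.2 = 1) → -(2 * (n : ℤ)) ≤ c.1 → c.1 < 2 * (n : ℤ) →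
        ∃ t, t < T ∧ (S^[t] C).pos = c := by
  obtain ⟨hp, hd, hq, hq'⟩ := h
  obtain ⟨D, ⟨T, t1, t2, t3⟩, pD, dD, qD, uD⟩ := excursion n C hp hd hq
  have hT : 0 < T := by
    rcases Nat.eq_zero_or_pos T with h0 | h0
    · subst h0
      have : C = D := t1
      rw [← this, hp] at pD
      simp at pD
    · exact h0
  have p2 : (rc D).pos = (0, 0) := by
    show rho D.pos = _
    rw [pD]; simp [rho]
  have d2 : (rc D).dir = .east := by
    show opp D.dir = _
    rw [dD]; rfl
  have q2 : Q (rc D).grid 0 n := by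
    refine Q_congr ?_ hq'
    intro c hc
    show D.grid (rho c) = C.grid (rho c)
    apply uD
    simp only [rho]
    omega
  obtain ⟨E, ⟨T', t1', t2', t3'⟩, pE, dE, qE, uE⟩ := excursion n (rc D) p2 d2 q2
  have hE : S^[T'] D = rc E := by
    rw [← t1', iter_rc, rc_rc]
  have key : ∀ t, S^[T + t] C = S^[t] D := by
    intro t
    rw [Nat.add_comm, Function.iterate_add_apply, t1]
  have key2 : ∀ t, (S^[t] D).pos = rho (S^[t] (rc D)).pos := by
    intro t
    rw [iter_rc]
    show _ = rho (rho _)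
    rw [rho_rho]
  refine ⟨T + T', by omega, ?_, ?_, ?_⟩
  · rw [key, hE]
    refine ⟨?_, ?_, ?_, ?_⟩
    · show rho E.pos = _
      rw [pE]; simp [rho]
    · show opp E.dir = _
      rw [dE]; rfl
    · refine Q_congr ?_ qD
      intro c hc
      show E.grid (rho c) = D.grid c
      rw [uE _ (by simp only [rho]; omega)]
      show D.grid (rho (rho c)) = _
      rw [rho_rho]
    · have : (fun c => (rc E).grid (rho c)) = E.grid := by
        funext c
        show E.grid (rho (rho c)) = _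
        rw [rho_rho]
      rw [this]
      exact qE
  · intro t ht
    by_cases hc : t < T
    · rcases t2 t hc with h1 | h1
      · exact Or.inl h1
      · exact Or.inr (Or.inl h1)
    · have e : t = T + (t - T) := by omega
      rw [e, key, key2]
      have h1 := t2' (t - T) (by omega)
      rcases h1 with h1 | h1
      · left
        simp only [rho]
        omega
      · right; right
        simp only [rho]
        omega
  · intro c hc h1 h2
    by_cases h3 : 0 ≤ c.1
    · obtain ⟨t, ht, h4⟩ := t3 c ⟨hc, h3, h2⟩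
      exact ⟨t, by omega, h4⟩
    · obtain ⟨t, ht, h4⟩ := t3' (rho c) ⟨by simp only [rho]; omega, by simp only [rho]; omega,
        by simp only [rho]; omega⟩
      refine ⟨T + t, by omega, ?_⟩
      rw [key, key2, h4, rho_rho]

theorem V2_mono {n m : ℕ} (h : n ≤ m) : V2 m ⊆ V2 n := by
  intro c hc
  rcases hc with h1 | h1 | h1
  · exact Or.inl h1
  · exact Or.inr (Or.inl (by omega))
  · exact Or.inr (Or.inr (by omega))

theorem all_pos : ∀ (t n : ℕ) (C : Config 2), Inv n C → (S^[t] C).pos ∈ V2 n := by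
  intro t
  induction t using Nat.strong_induction_on with
  | _ t ih =>
    intro n C h
    obtain ⟨T, h0, h1, h2, _⟩ := next_inv n C h
    by_cases hc : t < T
    · exact h2 t hc
    · have e : t = (t - T) + T := by omega
      rw [e, Function.iterate_add_apply]
      exact V2_mono (Nat.le_succ n) (ih (t - T) (by omega) (n + 1) _ h1)

theorem reach (C : Config 2) (h : Inv 0 C) : ∀ n : ℕ, ∃ s : ℕ, n ≤ s ∧ Inv n (S^[s] C) := by
  intro n
  induction n with
  | zero => exact ⟨0, le_rfl, h⟩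
  | succ n ih =>
    obtain ⟨s, hs, hi⟩ := ih
    obtain ⟨T, h0, h1, _, _⟩ := next_inv n _ hi
    refine ⟨T + s, by omega, ?_⟩
    rw [Function.iterate_add_apply]
    exact h1

theorem rec_eq (C : Config 2) (h : Inv 0 C) :
    Rec LR C = {x : ℤ × ℤ | x.2 = 0 ∨ x.2 = 1} := by
  ext c
  constructor
  · intro hc
    by_contra hn
    obtain ⟨s, _, hi⟩ := reach C h (c.1.natAbs + 1)
    apply hc
    apply (Set.finite_lt_nat s).subset
    intro t ht
    have hpos : (S^[t] C).pos = c := ht
    show t < s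
    by_contra hts
    have e : t = (t - s) + s := by omega
    have := all_pos (t - s) _ _ hi
    rw [← Function.iterate_add_apply, ← e] at this
    rw [hpos] at this
    rcases this with h1 | h1 | h1
    · exact hn h1
    · omega
    · omega
  · intro hc
    show Set.Infinite _
    rw [Set.infinite_iff_exists_gt]
    intro N
    obtain ⟨s, hs, hi⟩ := reach C h (c.1.natAbs + 1 + N)
    obtain ⟨T, h0, h1, h2, h3⟩ := next_inv _ _ hi
    obtain ⟨t, ht, h4⟩ := h3 c hc (by omega) (by omega)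
    refine ⟨t + s, ?_, by omega⟩
    show (S^[t + s] C).pos = c
    rw [Function.iterate_add_apply]
    exact h4

/-! ### The initial configuration -/

/-- The initial grid on the columns `x >= 0`. -/
def fr (c : ℤ × ℤ) : Fin 2 :=
  if c.1 = 0 then (if c.2 = -2 ∨ c.2 = 0 then 1 else 0)
  else if c.1 = 1 then (if c.2 = -2 ∨ c.2 = -1 then 1 else 0)
  else if c.1 = 2 then (if c.2 = -1 ∨ c.2 = 0 ∨ c.2 = 1 then 1 else 0)
  else if c.1 % 2 = 1 then (if c.2 = -2 ∨ c.2 = 0 ∨ c.2 = 1 then 1 else 0)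
  else (if c.2 = -1 then 1 else 0)

/-- The initial configuration. -/
def C0 : Config 2 := ⟨fun c => if 0 ≤ c.1 then fr c else fr (rho c), (0, 0), .east⟩

theorem Q_fr : Q fr 0 0 := by
  refine ⟨fun j hj => absurd hj (Nat.not_lt_zero j), fun j _ hj => absurd hj (Nat.not_lt_zero j),
    ?_⟩
  refine ⟨by simp [fr], by simp [fr], by simp [fr], ?_, ?_⟩
  · intro j _
    have a0 : (2 * (j : ℤ) + 3) ≠ 0 := by omega
    have a1 : (2 * (j : ℤ) + 3) ≠ 1 := by omega
    have a2 : (2 * (j : ℤ) + 3) ≠ 2 := by omega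
    have a3 : (2 * (j : ℤ) + 3) % 2 = 1 := by omega
    simp [Fo, fr, a0, a1, a2, a3]
  · intro j _
    have a0 : (2 * (j : ℤ) + 4) ≠ 0 := by omega
    have a1 : (2 * (j : ℤ) + 4) ≠ 1 := by omega
    have a2 : (2 * (j : ℤ) + 4) ≠ 2 := by omega
    have a3 : (2 * (j : ℤ) + 4) % 2 = 0 := by omega
    simp [Fe, fr, a0, a1, a2, a3]

theorem inv0 : Inv 0 C0 := by
  refine ⟨rfl, rfl, ?_, ?_⟩
  · refine Q_congr ?_ Q_fr
    intro c hc
    simp [C0, hc]
  · refine Q_congr ?_ Q_fr
    intro c hc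
    have : ¬ (0 ≤ (rho c).1) := by simp only [rho]; omega
    simp only [C0, this, if_false, rho_rho]

/-- Some configuration of Langton's ant visits infinitely often exactly the cells of the strip
formed by the two rows `y = 0` and `y = 1`; hence it is false that for every rule word with
both letters and every configuration the set of infinitely often visited cells is empty or
the whole plane. -/
theorem result :
    (∃ C : Config 2, Rec LR C = {x : ℤ × ℤ | x.2 = 0 ∨ x.2 = 1}) ∧
    ¬ (∀ (m : ℕ) [NeZero m] (w : Fin m → Turn), (∃ i, w i = Turn.L) → (∃ i, w i = Turn.R) →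
        ∀ C : Config m, Rec w C = ∅ ∨ Rec w C = Set.univ) := by
  have h := rec_eq C0 inv0
  refine ⟨⟨C0, h⟩, ?_⟩
  intro hall
  rcases hall 2 LR ⟨0, rfl⟩ ⟨1, rfl⟩ C0 with h1 | h1
  · have : ((0, 0) : ℤ × ℤ) ∈ Rec LR C0 := by rw [h]; simp
    rw [h1] at this
    exact this
  · have : ((0, 2) : ℤ × ℤ) ∈ Rec LR C0 := by rw [h1]; trivial
    rw [h] at this
    simp at this

end Pool.Agent.Results.MP_d11917_an.StripAnt
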